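import Pool.Agent.AEN.Stmts

/-!
# Squad AEN, row TWO: two values of the potential at one site
-/

set_option autoImplicit false

open MeasureTheory ProbabilityTheory Function Filter

open scoped ENNReal BigOperators InnerProductSpace Topology

namespace Pool.Agent.AEN.H62

open Pool.Agent.Anderson Pool.Agent.Loc Pool.Agent.Helper54.Bal Pool.Agent.AEN

theorem et_anti {m n : ℕ} (h : m ≤ n) : et n ≤ et m := by
  unfold et
  apply one_div_le_one_div_of_le (by positivity)
  have : (m : ℝ) ≤ n := by exact_mod_cast h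
  linarith

/-- the norms tend to infinity -/
theorem tendsto_norm (hmon : MonStmt) {d : ℕ} {V : Site d → ℝ} {E : ℝ} {y : Site d}
    (h : ¬ Bd V E y) : Tendsto (fun n => ‖Gn V E n y‖) atTop atTop := by
  apply tendsto_atTop_atTop_of_monotone
  · intro m n hmn
    exact hmon d V E (del y) (et n) (et m) (et_pos n) (et_anti hmn)
  · intro C
    by_contra hne
    push Not at hne
    exact h ⟨C, fun n => (hne n).le⟩

theorem two (hmon : MonStmt) : TwoStmt := by
  rintro d V E x y s hs ⟨C1, h1⟩ ⟨C2, h2⟩ hy
  have ht := tendsto_norm hmon hy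
  have hs' : 0 < |s - V y| := abs_pos.2 (sub_ne_zero.2 hs)
  have key : ∀ n, |s - V y| * ‖Gn (Function.update V y s) E n x y‖ * ‖Gn V E n y‖ ≤ C1 + C2 := by
    intro n
    have h := Pool.Agent.QE.G_upd (V := V) (zn_im_ne E n) y s (del x)
    have h3 : (((s : ℂ) - V y) * Gn (Function.update V y s) E n x y) • Gn V E n y =
        Gn V E n x - Gn (Function.update V y s) E n x := by
      unfold Gn
      rw [h]
      abel
    have h4 : ‖(((s : ℂ) - V y) * Gn (Function.update V y s) E n x y) • Gn V E n y‖ =
        |s - V y| * ‖Gn (Function.update V y s) E n x y‖ * ‖Gn V E n y‖ := by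
      rw [norm_smul, norm_mul, ← Complex.ofReal_sub, Complex.norm_real, Real.norm_eq_abs]
    rw [← h4, h3]
    exact (norm_sub_le _ _).trans (add_le_add (h1 n) (h2 n))
  have hlim : Tendsto (fun n => (C1 + C2) / |s - V y| / ‖Gn V E n y‖) atTop (𝓝 0) :=
    ht.const_div_atTop _
  refine squeeze_zero_norm' ?_ hlim
  filter_upwards [ht.eventually_gt_atTop 0] with n hn
  rw [le_div_iff₀ hn, le_div_iff₀ hs']
  have := key n
  nlinarith [this]

end Pool.Agent.AEN.H62
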